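import Pool.Agent.Work.MP_6750b5_co.SymPower

set_option autoImplicit false

namespace Pool.Agent.Results.MP_6750b5_co.ClawNotNested

open Pool.Agent.Work.MP_6750b5_co

/-- The edge relation of the claw `K_{1,3}` on `{0, 1, 2, 3}`, with centre `0`. -/
def clawAdj (a b : Fin 4) : Prop := (a = 0 ∧ b ≠ 0) ∨ (a ≠ 0 ∧ b = 0)

/-- The centre/leaf two-colouring of the claw. -/
def clawSide (a : Fin 4) : Bool := decide (a = 0)

lemma clawSide_ne (a b : Fin 4) (h : clawAdj a b) : clawSide a ≠ clawSide b := by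
  unfold clawAdj at h
  unfold clawSide
  rcases h with ⟨h1, h2⟩ | ⟨h1, h2⟩ <;> simp [h1, h2]

/-- The nondecreasing tuple `(0, ..., 0, x, ..., x)` with `j` zeros followed by `x`'s. -/
def tup (k j : ℕ) (x : Fin 4) : SymVertex 4 k :=
  ⟨fun t => if t.1 < j then 0 else x, by
    intro s t hst
    have h : s.1 ≤ t.1 := hst
    dsimp only
    split_ifs with h1 h2
    · exact le_refl _
    · exact Fin.zero_le _
    · omega
    · exact le_refl _⟩

lemma tup_ne {k j : ℕ} (hj : j < k) {x y : Fin 4} (hxy : x ≠ y) : tup k j x ≠ tup k j y := by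
  intro h
  have := congrFun (congrArg Subtype.val h) ⟨j, hj⟩
  simp [tup] at this
  exact hxy this

lemma tup_pos {j : ℕ} {x y : Fin 4} (hx : x ≠ 0) (hy : y ≠ 0) :
    0 < symWeight clawAdj (j + j) (tup (j + j) j x) (tup (j + j) j y) := by
  rw [symWeight_pos_iff]
  refine ⟨(tup (j + j) j x).1, mem_orb.2 ⟨1, by simp⟩,
    (tup (j + j) j y).1 ∘ Fin.revPerm, mem_orb.2 ⟨Fin.revPerm, rfl⟩, ?_⟩
  intro l
  have hl := l.2
  simp only [tup, Function.comp, Fin.revPerm_apply, Fin.val_rev]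
  unfold clawAdj
  by_cases h1 : l.1 < j
  · have h2 : ¬ (j + j - (l.1 + 1) < j) := by omega
    rw [if_pos h1, if_neg h2]
    exact Or.inl ⟨rfl, hy⟩
  · have h2 : j + j - (l.1 + 1) < j := by omega
    rw [if_neg h1, if_pos h2]
    exact Or.inr ⟨hx, rfl⟩

/-- **Symmetric tensor powers are not nested, even if loops are ignored.** There is a finite
simple (loopless) graph, the claw `K_{1,3}`, such that for every even `k ≥ 2` and every odd
`r ≥ k` no injective map `φ` from the vertices of the `k`-th symmetric tensor power to those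
of the `r`-th satisfies `ω^{⊙k}(i,j) ≤ ω^{⊙r}(φ i, φ j)` for all pairs of *distinct* vertices
`i, j`. In particular the `k`-th power is not a weighted subgraph of the `r`-th. -/
theorem result :
    ∃ E : Fin 4 → Fin 4 → Prop, (∀ a b, E a b → E b a) ∧ (∀ a, ¬ E a a) ∧
      ∀ k r : ℕ, 1 ≤ k → k ≤ r → Even k → Odd r →
        ¬ ∃ φ : SymVertex 4 k → SymVertex 4 r, Function.Injective φ ∧
          ∀ i j : SymVertex 4 k, i ≠ j → symWeight E k i j ≤ symWeight E r (φ i) (φ j) := by
  refine ⟨clawAdj, ?_, ?_, ?_⟩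
  · intro a b h
    rcases h with ⟨h1, h2⟩ | ⟨h1, h2⟩
    · exact Or.inr ⟨h2, h1⟩
    · exact Or.inl ⟨h2, h1⟩
  · rintro a (⟨h1, h2⟩ | ⟨h1, h2⟩)
    · exact h2 h1
    · exact h1 h2
  · rintro k r hk - ⟨j, rfl⟩ hr ⟨φ, -, hφ⟩
    have hj : j < j + j := by omega
    have h12 := level_add_of_pos clawAdj clawSide clawSide_ne _ _
      (lt_of_lt_of_le (tup_pos (j := j) (x := 1) (y := 2) (by decide) (by decide))
        (hφ _ _ (tup_ne hj (by decide))))
    have h23 := level_add_of_pos clawAdj clawSide clawSide_ne _ _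
      (lt_of_lt_of_le (tup_pos (j := j) (x := 2) (y := 3) (by decide) (by decide))
        (hφ _ _ (tup_ne hj (by decide))))
    have h13 := level_add_of_pos clawAdj clawSide clawSide_ne _ _
      (lt_of_lt_of_le (tup_pos (j := j) (x := 1) (y := 3) (by decide) (by decide))
        (hφ _ _ (tup_ne hj (by decide))))
    obtain ⟨m, hm⟩ := hr
    omega

/-- Literal negation of the assertion of Q1, deduced from `result`. -/
theorem not_nested :
    ¬ ∀ (n : ℕ) (E : Fin n → Fin n → Prop), (∀ a b, E a b → E b a) → ∀ k r : ℕ, 1 ≤ k → k ≤ r →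
      IsWeightedSubgraph (symWeight E k) (symWeight E r) := by
  intro h
  obtain ⟨E, hE, -, hres⟩ := result
  obtain ⟨φ, hφ1, hφ2⟩ := h 4 E hE 2 3 (by norm_num) (by norm_num)
  exact hres 2 3 (by norm_num) (by norm_num) ⟨1, rfl⟩ ⟨1, rfl⟩ ⟨φ, hφ1, fun i j _ => hφ2 i j⟩

end Pool.Agent.Results.MP_6750b5_co.ClawNotNested
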